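import Pool.Agent.helper44.EX.Spec

/-!
# MOB: Moebius maps of the disc
-/

set_option autoImplicit false

open Complex Metric Set Filter Topology MeasureTheory Pool.Agent.helper98.ILF

noncomputable section

namespace EX

theorem MOB_den (a z : ℂ) (ha : ‖a‖ < 1) (hz : ‖z‖ < 1) : 1 + (starRingEnd ℂ) a * z ≠ 0 := by
  intro h
  have h1 : (starRingEnd ℂ) a * z = -1 := by linear_combination h
  have h2 : ‖(starRingEnd ℂ) a * z‖ = 1 := by rw [h1]; simp
  rw [norm_mul, RCLike.norm_conj] at h2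
  nlinarith [norm_nonneg a, norm_nonneg z]

theorem MOB_id (a z : ℂ) : ‖1 + (starRingEnd ℂ) a * z‖ ^ 2 - ‖z + a‖ ^ 2 =
    (1 - ‖a‖ ^ 2) * (1 - ‖z‖ ^ 2) := by
  simp only [Complex.sq_norm, Complex.normSq_apply, Complex.add_re, Complex.add_im, Complex.mul_re,
    Complex.mul_im, Complex.conj_re, Complex.conj_im, Complex.one_re, Complex.one_im]
  ring

theorem MOB_formula (a z : ℂ) (ha : ‖a‖ < 1) (hz : ‖z‖ < 1) :
    1 - ‖tau a z‖ ^ 2 = (1 - ‖a‖ ^ 2) * (1 - ‖z‖ ^ 2) / ‖1 + (starRingEnd ℂ) a * z‖ ^ 2 := by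
  have h0 : ‖1 + (starRingEnd ℂ) a * z‖ ≠ 0 := norm_ne_zero_iff.mpr (MOB_den a z ha hz)
  unfold tau
  rw [norm_div, div_pow, ← MOB_id]
  generalize ‖1 + (starRingEnd ℂ) a * z‖ = u at *
  field_simp

theorem MOB_lt (a z : ℂ) (ha : ‖a‖ < 1) (hz : ‖z‖ < 1) : ‖tau a z‖ < 1 := by
  have h0 : 0 < ‖1 + (starRingEnd ℂ) a * z‖ := norm_pos_iff.mpr (MOB_den a z ha hz)
  have h1 := MOB_formula a z ha hz
  have h2 : 0 < 1 - ‖a‖ ^ 2 := by nlinarith [norm_nonneg a]
  have h3 : 0 < 1 - ‖z‖ ^ 2 := by nlinarith [norm_nonneg z]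
  have h4 : 0 < 1 - ‖tau a z‖ ^ 2 := by rw [h1]; positivity
  nlinarith [norm_nonneg (tau a z)]

theorem MOB_one (a : ℂ) (ha : ‖a‖ < 1) : 1 - (starRingEnd ℂ) a * a ≠ 0 := by
  have := MOB_den a (-a) ha (by rwa [norm_neg])
  intro h
  apply this
  linear_combination h

theorem MOB_inv (a z : ℂ) (ha : ‖a‖ < 1) (hz : ‖z‖ < 1) : tau (-a) (tau a z) = z := by
  have h1 := MOB_den a z ha hz
  have h2 := MOB_one a ha
  unfold tau
  rw [map_neg]
  have e1 : (z + a) / (1 + (starRingEnd ℂ) a * z) + -a =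
      z * (1 - (starRingEnd ℂ) a * a) / (1 + (starRingEnd ℂ) a * z) := by
    rw [eq_div_iff h1, add_mul, div_mul_cancel₀ _ h1]
    ring
  have e2 : 1 + -(starRingEnd ℂ) a * ((z + a) / (1 + (starRingEnd ℂ) a * z)) =
      (1 - (starRingEnd ℂ) a * a) / (1 + (starRingEnd ℂ) a * z) := by
    rw [eq_div_iff h1, add_mul, mul_assoc, div_mul_cancel₀ _ h1]
    ring
  rw [e1, e2, div_div_div_cancel_right₀ h1, mul_div_assoc, div_self h2, mul_one]

theorem MOB : MOB_stmt := by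
  intro a ha
  have ha' : ‖a‖ < 1 := by simpa using ha
  have hz' : ∀ z ∈ ball (0 : ℂ) 1, ‖z‖ < 1 := fun z hz => by simpa using hz
  have hna : ‖-a‖ < 1 := by rwa [norm_neg]
  refine ⟨fun z hz => MOB_den a z ha' (hz' z hz), ?_, ?_, ?_, ?_, ?_, ?_, ?_,
    fun z hz => MOB_formula a z ha' (hz' z hz)⟩
  · intro z hz
    apply DifferentiableAt.differentiableWithinAt
    unfold tau
    exact (differentiableAt_id.add_const a).div
      ((differentiableAt_id.const_mul _).const_add 1) (MOB_den a z ha' (hz' z hz))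
  · intro z hz
    simpa using MOB_lt a z ha' (hz' z hz)
  · intro z hz w hw h
    rw [← MOB_inv a z ha' (hz' z hz), ← MOB_inv a w ha' (hz' w hw), h]
  · simp [tau]
  · simp [tau]
  · intro z hz
    refine ⟨MOB_inv a z ha' (hz' z hz), ?_⟩
    have := MOB_inv (-a) z hna (hz' z hz)
    rwa [neg_neg] at this
  · intro b _
    unfold tau rho
    rw [norm_div, map_neg, ← sub_eq_add_neg, norm_sub_rev b a]
    congr 2
    ring

end EX
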